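import Pool.Agent.Helper42.PP.Goals1

/-! Packet PP-B-PFUN of project PP (helper42, helper38, MP_fc6b1e_nt). -/

set_option autoImplicit false

namespace Pool.Agent.Helper30.PP

open Polynomial Pool.Agent.Helper42.PP Pool.Agent.Helper51.RP

section hom

variable {F A : Type} [Field F]

lemma hom_one [AddCommGroup A] {f : Fˣ → A} (hf : Hom f) : f 1 = 0 := by
  have h := hf 1 1
  rw [mul_one] at h
  exact left_eq_add.1 h

lemma hom_pow [AddCommGroup A] {f : Fˣ → A} (hf : Hom f) (x : Fˣ) (n : ℕ) :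
    f (x ^ n) = n • f x := by
  induction n with
  | zero => simp [hom_one hf]
  | succ n ih => rw [pow_succ, hf, ih, succ_nsmul]

lemma hom_prod [AddCommGroup A] {f : Fˣ → A} (hf : Hom f) (s : Finset ℕ) (g : ℕ → Fˣ) :
    f (∏ j ∈ s, g j) = ∑ j ∈ s, f (g j) := by
  classical
  induction s using Finset.induction_on with
  | empty => simp [hom_one hf]
  | insert a s ha ih => rw [Finset.prod_insert ha, hf, ih, Finset.sum_insert ha]

end hom

section

variable {p : ℕ} {K M : Type} [Field K] [Field M] [Algebra K M]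

lemma act_pow_succ (δ : M ≃ₐ[K] M) (j : ℕ) (x : Mˣ) :
    act (δ ^ (j + 1)) x = act δ (act (δ ^ j) x) := by
  ext
  simp [act, pow_succ']

lemma act_mul (δ δ' : M ≃ₐ[K] M) (x : Mˣ) : act (δ * δ') x = act δ (act δ' x) := by
  ext
  simp [act]

lemma pol_eq (c : (ZMod p)[X]) (δ : M ≃ₐ[K] M) (x : Mˣ) :
    pol c δ x = ∏ j ∈ c.support, (act (δ ^ j) x) ^ (c.coeff j).val := by
  unfold pol
  rw [MonoidHom.finsetProd_apply]
  rfl

end

lemma val_nsmul {p : ℕ} [Fact p.Prime] {A : Type} [CommRing A] [Algebra (ZMod p) A] (c : ZMod p)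
    (a : A) : c.val • a = algebraMap (ZMod p) A c * a := by
  rw [nsmul_eq_mul]
  congr 1
  conv_rhs => rw [← ZMod.natCast_zmod_val c]
  rw [map_natCast]

lemma p_nsmul {p : ℕ} [Fact p.Prime] {A : Type} [CommRing A] [Algebra (ZMod p) A] (a : A) :
    p • a = 0 := by
  rw [nsmul_eq_mul]
  have h : ((p : ℕ) : A) = algebraMap (ZMod p) A ((p : ℕ) : ZMod p) := by rw [map_natCast]
  rw [h, ZMod.natCast_self, map_zero, zero_mul]

lemma mk_eq {p : ℕ} [Fact p.Prime] (R c : (ZMod p)[X]) :
    AdjoinRoot.mk R c = ∑ j ∈ c.support,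
      algebraMap (ZMod p) (AdjoinRoot R) (c.coeff j) * AdjoinRoot.root R ^ j := by
  conv_lhs => rw [c.as_sum_support_C_mul_X_pow]
  rw [map_sum]
  refine Finset.sum_congr rfl fun j _ => ?_
  rw [map_mul, map_pow, AdjoinRoot.mk_C, AdjoinRoot.mk_X]
  rfl

/-- the shift -/
lemma shift {A : Type} [CommRing A] (m : ℕ) (_hm : 0 < m) (r : A) (hr : r ^ m = 1) (s : ℕ → A)
    (hs : ∀ i, s (i + m) = s i) :
    ∑ i ∈ Finset.range m, s (i + 1) * r ^ (m - i) =
      r * ∑ i ∈ Finset.range m, s i * r ^ (m - i) := by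
  have h1 : ∑ i ∈ Finset.range m, s (i + 1) * r ^ (m - i) =
      ∑ i ∈ Finset.range m, s (i + 1) * r ^ (m + 1 - (i + 1)) := by
    refine Finset.sum_congr rfl fun i _ => ?_
    congr 2
    omega
  have h2 : r * ∑ i ∈ Finset.range m, s i * r ^ (m - i) =
      ∑ i ∈ Finset.range m, s i * r ^ (m + 1 - i) := by
    rw [Finset.mul_sum]
    refine Finset.sum_congr rfl fun i hi => ?_
    have hi' := Finset.mem_range.1 hi
    have h3 : m + 1 - i = (m - i) + 1 := by omega
    rw [h3, pow_succ]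
    ring
  have h3 := Finset.sum_range_succ' (fun i => s i * r ^ (m + 1 - i)) m
  have h4 := Finset.sum_range_succ (fun i => s i * r ^ (m + 1 - i)) m
  rw [h1, h2]
  have h5 : s 0 * r ^ (m + 1 - 0) = s m * r ^ (m + 1 - m) := by
    have h6 := hs 0
    rw [zero_add] at h6
    rw [h6, Nat.sub_zero, pow_succ, hr, Nat.add_sub_cancel_left]
    ring
  rw [h4, h5] at h3
  exact (add_right_cancel h3).symm

lemma shifts {A : Type} [CommRing A] (m : ℕ) (hm : 0 < m) (r : A) (hr : r ^ m = 1) (s : ℕ → A)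
    (hs : ∀ i, s (i + m) = s i) (j : ℕ) :
    ∑ i ∈ Finset.range m, s (i + j) * r ^ (m - i) =
      r ^ j * ∑ i ∈ Finset.range m, s i * r ^ (m - i) := by
  induction j with
  | zero => simp
  | succ j ih =>
    have h := shift m hm r hr (fun i => s (i + j)) (fun i => by
      show s (i + m + j) = s (i + j)
      rw [show i + m + j = i + j + m by omega, hs])
    have h' : ∑ i ∈ Finset.range m, s (i + (j + 1)) * r ^ (m - i) =
        ∑ i ∈ Finset.range m, s (i + 1 + j) * r ^ (m - i) :=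
      Finset.sum_congr rfl fun i _ => by rw [show i + (j + 1) = i + 1 + j by omega]
    rw [h']
    refine h.trans ?_
    rw [ih, pow_succ]
    ring

lemma root_pow {p : ℕ} [Fact p.Prime] (R : (ZMod p)[X]) (m : ℕ) (h : R ∣ X ^ m - 1) :
    AdjoinRoot.root R ^ m = 1 := by
  have h1 : AdjoinRoot.mk R (X ^ m - 1) = 0 := AdjoinRoot.mk_eq_zero.2 h
  rw [map_sub, map_pow, AdjoinRoot.mk_X, map_one] at h1
  exact sub_eq_zero.1 h1

/-- the polynomial of a sequence -/
noncomputable def St {p : ℕ} (m : ℕ) (s : ℕ → ZMod p) : (ZMod p)[X] :=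
  ∑ i ∈ Finset.range m, C (s i) * X ^ (m - i)

lemma mk_St {p : ℕ} [Fact p.Prime] (R : (ZMod p)[X]) (m : ℕ) (s : ℕ → ZMod p) :
    AdjoinRoot.mk R (St m s) = ∑ i ∈ Finset.range m,
      algebraMap (ZMod p) (AdjoinRoot R) (s i) * AdjoinRoot.root R ^ (m - i) := by
  unfold St
  rw [map_sum]
  refine Finset.sum_congr rfl fun j _ => ?_
  rw [map_mul, map_pow, AdjoinRoot.mk_C, AdjoinRoot.mk_X]
  rfl

lemma St_coeff {p : ℕ} (m : ℕ) (s : ℕ → ZMod p) (i : ℕ) (hi : i < m) :
    (St m s).coeff (m - i) = s i := by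
  unfold St
  rw [finsetSum_coeff, Finset.sum_eq_single i]
  · rw [coeff_C_mul, coeff_X_pow, if_pos rfl, mul_one]
  · intro j hj hne
    have hj' := Finset.mem_range.1 hj
    rw [coeff_C_mul, coeff_X_pow, if_neg (by omega), mul_zero]
  · intro h
    exact absurd (Finset.mem_range.2 hi) h

lemma St_coeff_zero {p : ℕ} (m : ℕ) (s : ℕ → ZMod p) : (St m s).coeff 0 = 0 := by
  unfold St
  rw [finsetSum_coeff]
  refine Finset.sum_eq_zero fun j hj => ?_
  have hj' := Finset.mem_range.1 hj
  rw [coeff_C_mul, coeff_X_pow, if_neg (by omega), mul_zero]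

lemma St_deg {p : ℕ} [Fact p.Prime] (m : ℕ) (s : ℕ → ZMod p) : (St m s).natDegree ≤ m := by
  unfold St
  refine natDegree_sum_le_of_forall_le _ _ fun i _ => ?_
  exact (natDegree_C_mul_X_pow_le _ _).trans (Nat.sub_le _ _)

lemma St_zero {p : ℕ} [Fact p.Prime] (m : ℕ) (hm : 0 < m) (s : ℕ → ZMod p)
    (h : (X ^ m - 1 : (ZMod p)[X]) ∣ St m s) (i : ℕ) (hi : i < m) : s i = 0 := by
  obtain ⟨T, hT⟩ := h
  have hT0 : T = 0 := by
    by_contra hne
    have h1 : (X ^ m - 1 : (ZMod p)[X]) = X ^ m - C 1 := by simp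
    have h2 : (X ^ m - 1 : (ZMod p)[X]).natDegree = m := by
      rw [h1, natDegree_X_pow_sub_C]
    have h3 : (X ^ m - 1 : (ZMod p)[X]) ≠ 0 := by
      rw [h1]
      exact X_pow_sub_C_ne_zero hm 1
    have h4 := St_deg m s
    rw [hT, natDegree_mul h3 hne, h2] at h4
    have h5 : T.natDegree = 0 := by omega
    obtain ⟨t, ht⟩ := natDegree_eq_zero.1 h5
    have h6 := St_coeff_zero m s
    rw [hT, ← ht, coeff_mul_C, coeff_sub, coeff_X_pow, if_neg (by omega), coeff_one_zero] at h6
    apply hne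
    rw [← ht]
    have h7 : t = 0 := by
      have : (0 - 1) * t = -t := by ring
      rw [this] at h6
      exact neg_eq_zero.1 h6
    rw [h7, C_0]
  have h8 := St_coeff m s i hi
  rw [hT, hT0, mul_zero, coeff_zero] at h8
  exact h8.symm

theorem p_fun : Pool.Agent.Helper42.PP.P_FUN := by
  intro p _ K M _ _ _ m δ P hm hmp hδ hirr hP
  have hr := root_pow P m hP
  refine ⟨fun F hF => ⟨fun c x => ?_, ?_⟩, fun f hf => ⟨⟨?_, ?_⟩, ?_⟩⟩
  · obtain ⟨hF1, hF2⟩ := hF
    have h1 : ∀ j : ℕ, F (act (δ ^ j) x) = AdjoinRoot.root P ^ j * F x := by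
      intro j
      induction j with
      | zero =>
        have : act (δ ^ 0) x = x := by
          ext
          simp [act]
        rw [this, pow_zero, one_mul]
      | succ j ih =>
        rw [act_pow_succ, hF2, ih, pow_succ]
        ring
    rw [pol_eq, hom_prod hF1, mk_eq, Finset.sum_mul]
    refine Finset.sum_congr rfl fun j _ => ?_
    rw [hom_pow hF1, val_nsmul, h1]
    ring
  · rintro x ⟨y, rfl⟩
    rw [hom_pow hF.1, p_nsmul]
  · intro x y
    unfold kf
    rw [← Finset.sum_add_distrib]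
    refine Finset.sum_congr rfl fun i _ => ?_
    rw [map_mul, hf, map_add, add_mul]
  · intro x
    unfold kf
    have h1 := shift m hm (AdjoinRoot.root P) hr
      (fun i => algebraMap (ZMod p) (AdjoinRoot P) (f (act (δ ^ i) x))) (fun i => by
        show algebraMap (ZMod p) (AdjoinRoot P) (f (act (δ ^ (i + m)) x)) = _
        rw [pow_add, hδ, mul_one])
    rw [← h1]
    refine Finset.sum_congr rfl fun i _ => ?_
    rw [pow_succ, act_mul]
  · intro x hx hk
    set s : ℕ → ZMod p := fun i => f (act (δ ^ i) x) with hsdef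
    have hper : ∀ i, s (i + m) = s i := fun i => by
      show f (act (δ ^ (i + m)) x) = f (act (δ ^ i) x)
      rw [pow_add, hδ, mul_one]
    -- the relation
    have hrel : ∀ l : ℕ, ∑ j ∈ P.support, P.coeff j * s (l + j) = 0 := by
      intro l
      obtain ⟨y, hy⟩ := hx
      have h1 : f (act (δ ^ l) (pol P δ x)) = 0 := by
        rw [hy, map_pow, hom_pow hf, nsmul_eq_mul, ZMod.natCast_self, zero_mul]
      rw [pol_eq, map_prod, hom_prod hf] at h1
      rw [← h1]
      refine Finset.sum_congr rfl fun j _ => ?_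
      rw [map_pow, hom_pow hf, ← act_mul, ← pow_add, val_nsmul]
      rfl
    -- `X^m - 1` divides `P * St`
    have hdvd : (X ^ m - 1 : (ZMod p)[X]) ∣ P * St m s := by
      rw [← AdjoinRoot.mk_eq_zero, map_mul, mk_eq, mk_St, Finset.sum_mul]
      have hr1 := root_pow (X ^ m - 1 : (ZMod p)[X]) m dvd_rfl
      set R : (ZMod p)[X] := X ^ m - 1 with hR
      have h2 : ∀ j ∈ P.support, algebraMap (ZMod p) (AdjoinRoot R) (P.coeff j) *
          AdjoinRoot.root R ^ j * ∑ i ∈ Finset.range m,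
            algebraMap (ZMod p) (AdjoinRoot R) (s i) * AdjoinRoot.root R ^ (m - i) =
          ∑ i ∈ Finset.range m, algebraMap (ZMod p) (AdjoinRoot R) (P.coeff j * s (i + j)) *
            AdjoinRoot.root R ^ (m - i) := by
        intro j _
        have h3 := shifts m hm (AdjoinRoot.root R) hr1
          (fun i => algebraMap (ZMod p) (AdjoinRoot R) (s i)) (fun i => by
            show algebraMap (ZMod p) (AdjoinRoot R) (s (i + m)) = _
            rw [hper]) j
        rw [mul_assoc, ← h3, Finset.mul_sum]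
        refine Finset.sum_congr rfl fun i _ => ?_
        rw [map_mul, mul_assoc]
      rw [Finset.sum_congr rfl h2, Finset.sum_comm]
      refine Finset.sum_eq_zero fun i _ => ?_
      rw [← Finset.sum_mul, ← map_sum, hrel, map_zero, zero_mul]
    have hPS : P ∣ St m s := by
      rw [← AdjoinRoot.mk_eq_zero, mk_St]
      exact hk
    obtain ⟨Q, hQ⟩ := hP
    have hP0 : P ≠ 0 := hirr.ne_zero
    have hQS : Q ∣ St m s := by
      rw [hQ] at hdvd
      exact (mul_dvd_mul_iff_left hP0).1 hdvd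
    have hsep : (X ^ m - 1 : (ZMod p)[X]).Separable := by
      rw [X_pow_sub_one_separable_iff]
      intro h
      rw [ZMod.natCast_eq_zero_iff] at h
      have h1 := Nat.dvd_gcd h (dvd_refl p)
      rw [hmp] at h1
      exact (Fact.out : p.Prime).one_lt.ne' (Nat.dvd_one.1 h1)
    have hcop : IsCoprime P Q := by
      rw [hQ] at hsep
      exact hsep.isCoprime
    have hall : (X ^ m - 1 : (ZMod p)[X]) ∣ St m s := by
      rw [hQ]
      exact hcop.mul_dvd hPS hQS
    intro i
    have h1 : δ ^ i = δ ^ (i % m) := by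
      conv_lhs => rw [← Nat.mod_add_div i m]
      rw [pow_add, pow_mul, hδ, one_pow, mul_one]
    rw [h1]
    exact St_zero m hm s hall (i % m) (Nat.mod_lt _ hm)

end Pool.Agent.Helper30.PP
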