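import Pool.Agent.Helper76.PP.Goals3
import Pool.Agent.Helper32.RP.LOB
import Pool.Agent.Helper14.RD.TOW
import Pool.Agent.Helper30.PP.PFUN

/-! Packet PP-BNRM of project PP (helper76, MP_fc6b1e_nt). -/

set_option autoImplicit false

namespace Pool.Agent.Helper30.PP

open NumberField Polynomial Module IsDedekindDomain Pool.Agent.Helper51.SigLeo
open Pool.Agent.Helper51.RP Pool.Agent.Helper42.RD Pool.Agent.Helper42.PP

section stab

variable {K F : Type} [Field K] [Field F] [NumberField F] [Algebra K F]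
  {S : Set (HeightOneSpectrum (𝓞 F))}

lemma mem_unit' (x : Fˣ) : x ∈ S.unit F ↔ ∀ v ∉ S, v.valuation F (x : F) = 1 := Iff.rfl

lemma act_unit (hst : ∀ w ∈ S, ∀ w', ConjP K w' w → w' ∈ S) (σ : F ≃ₐ[K] F) (x : Fˣ)
    (hx : x ∈ S.unit F) : act σ x ∈ S.unit F := by
  rw [mem_unit'] at hx ⊢
  intro v hv
  have h1 : Pool.Agent.Helper32.RP.pr σ v ∉ S := fun h => hv (hst _ h v
    ⟨σ, fun y => Pool.Agent.Helper32.RP.pr_val σ v y⟩)
  have h2 := hx _ h1
  rw [← Pool.Agent.Helper32.RP.pr_val] at h2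
  exact h2

lemma pol_unit {p : ℕ} (hst : ∀ w ∈ S, ∀ w', ConjP K w' w → w' ∈ S) (σ : F ≃ₐ[K] F)
    (c : (ZMod p)[X]) (x : Fˣ) (hx : x ∈ S.unit F) : pol c σ x ∈ S.unit F := by
  rw [pol_eq]
  exact Subgroup.prod_mem _ fun j _ => Subgroup.pow_mem _ (act_unit hst _ x hx) _

end stab

section quot

variable {p : ℕ} [Fact p.Prime] {K M : Type} [Field K] [Field M] [Algebra K M]

lemma q_pol (δ : M ≃ₐ[K] M) {V : Type} [AddCommGroup V] [Module (ZMod p) V]
    (φ : V →ₗ[ZMod p] V) (q : Mˣ →* Multiplicative V)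
    (hq : ∀ x, (q (Units.map ((δ : M →+* M) : M →* M) x)).toAdd = φ (q x).toAdd)
    (c : (ZMod p)[X]) (x : Mˣ) : (q (pol c δ x)).toAdd = aeval φ c (q x).toAdd := by
  have hit : ∀ j : ℕ, (q (act (δ ^ j) x)).toAdd = φ^[j] (q x).toAdd := by
    intro j
    induction j with
    | zero =>
      have : act (δ ^ 0) x = x := by
        ext
        simp [act]
      rw [this]
      rfl
    | succ j ih =>
      rw [act_pow_succ, Function.iterate_succ_apply', ← ih, ← hq]
      rfl
  rw [Pool.Agent.Helper32.RP.aeval_lin, pol_eq, map_prod, toAdd_prod]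
  refine Finset.sum_congr rfl fun j _ => ?_
  rw [map_pow, toAdd_pow, hit]
  conv_rhs => rw [← ZMod.natCast_zmod_val (c.coeff j), Nat.cast_smul_eq_nsmul]

/-- `P(δ)` of the projection is a `p`-th power, and commutation -/
lemma pol_facts (m : ℕ) (δ : M ≃ₐ[K] M) (hδ : δ ^ m = 1) (P Q b : (ZMod p)[X])
    (hPQ : X ^ m - 1 = P * Q) (x : Mˣ) :
    Pw p (pol P δ (pol (b * Q) δ x)) ∧
      ∀ (c : (ZMod p)[X]) (u : Mˣ), Pw p (pol P δ u) → Pw p (pol P δ (pol c δ u)) := by
  obtain ⟨V, i1, i2, φ, q, hq1, hq2⟩ := Pool.Agent.Helper32.RP.quot_mod (p := p) δ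
  have hz : ∀ y, Pw p y ↔ (q y).toAdd = 0 := by
    intro y
    rw [← hq1]
    exact Iff.rfl
  refine ⟨?_, fun c u hu => ?_⟩
  · rw [hz, q_pol δ φ q hq2, q_pol δ φ q hq2, ← Module.End.mul_apply, ← map_mul]
    have h1 : P * (b * Q) = b * (X ^ m - 1) := by
      rw [hPQ]
      ring
    rw [h1, map_mul, Module.End.mul_apply]
    have h2 : aeval φ (X ^ m - 1 : (ZMod p)[X]) (q x).toAdd = 0 := by
      rw [map_sub, map_pow, aeval_X, map_one, LinearMap.sub_apply, Module.End.one_apply,
        Module.End.pow_apply]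
      have h3 : φ^[m] (q x).toAdd = (q (act (δ ^ m) x)).toAdd := by
        have hit : ∀ j : ℕ, (q (act (δ ^ j) x)).toAdd = φ^[j] (q x).toAdd := by
          intro j
          induction j with
          | zero =>
            have : act (δ ^ 0) x = x := by
              ext
              simp [act]
            rw [this]
            rfl
          | succ j ih =>
            rw [act_pow_succ, Function.iterate_succ_apply', ← ih, ← hq2]
            rfl
        exact (hit m).symm
      have h4 : act (δ ^ m) x = x := by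
        rw [hδ]
        ext
        simp [act]
      rw [h3, h4, sub_self]
    rw [h2, map_zero]
  · rw [hz] at hu ⊢
    rw [q_pol δ φ q hq2] at hu
    rw [q_pol δ φ q hq2, q_pol δ φ q hq2, ← Module.End.mul_apply, ← map_mul, mul_comm, map_mul,
      Module.End.mul_apply, hu, map_zero]

end quot

lemma hom_prod' {F A ι : Type} [Field F] [AddCommGroup A] {f : Fˣ → A} (hf : Hom f)
    (s : Finset ι) (g : ι → Fˣ) : f (∏ j ∈ s, g j) = ∑ j ∈ s, f (g j) := by
  classical
  induction s using Finset.induction_on with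
  | empty => simp [hom_one hf]
  | insert a s ha ih => rw [Finset.prod_insert ha, hf, ih, Finset.sum_insert ha]

lemma hom_inv {F A : Type} [Field F] [AddCommGroup A] {f : Fˣ → A} (hf : Hom f) (x : Fˣ) :
    f x⁻¹ = - f x := by
  have h := hf x x⁻¹
  rw [mul_inv_cancel, hom_one hf] at h
  exact (neg_eq_of_add_eq_zero_right h.symm).symm

lemma hom_div {F A : Type} [Field F] [AddCommGroup A] {f : Fˣ → A} (hf : Hom f) (x y : Fˣ) :
    f (x / y) = f x - f y := by
  rw [div_eq_mul_inv, hf, hom_inv hf, sub_eq_add_neg]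

theorem b_nrm (h1 : P_FUN) (h2 : P_OMG) (h3 : P_UPR) : Pool.Agent.Helper76.PP.B_NRM := by
  intro p hp k _ _ K M K₁ M₁ _ _ _ _ _ _ _ _ _ _ _ _ _ _ _ _ _ _ ε hT m δ ζ Φ P hΦ hord hfr B
  have hm : 0 < m := lt_trans one_pos hΦ.one_lt
  have hδ : δ ^ m = 1 := by rw [← hord, pow_orderOf_eq_one]
  obtain ⟨f1, f2⟩ := h1 p K M m δ P hm hΦ.copm hδ hΦ.irr hΦ.dvdP
  have hcop : (finrank K K₁).Coprime p := by
    have h := hp.out.one_lt
    have hc1 : (p - 1).Coprime p := by
      have h2 : (p - 1).Coprime (p - 1 + 1) := by simp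
      rwa [Nat.sub_add_cancel h.le] at h2
    exact Nat.Coprime.coprime_dvd_left
      (Pool.Agent.Helper14.RD.finrank_dvd_pred p K K₁ ε hT.prim hT.gen) hc1
  obtain ⟨o1, o2, o3, -, o5⟩ := h2 p K K₁ ε hT.prim hT.gen hcop
  have hstM : ∀ w ∈ up M B.S, ∀ w', ConjP K w' w → w' ∈ up M B.S := (h3 p K M B.S).2.1
  have hstK : ∀ w ∈ up K₁ B.S, ∀ w', ConjP K w' w → w' ∈ up K₁ B.S := (h3 p K K₁ B.S).2.1
  refine ⟨fun F hF => ⟨⟨?_, ?_⟩, ?_, ?_⟩, fun g hg => ⟨⟨?_, ?_⟩, ?_, ?_⟩, fun v hv => ⟨?_, ?_⟩⟩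
  · intro x y
    unfold Base.til
    have e1 : ∑ i, F (B.u i) * B.rho i (x * y) =
        ∑ i, F (B.u i) * B.rho i x + ∑ i, F (B.u i) * B.rho i y := by
      rw [← Finset.sum_add_distrib]
      exact Finset.sum_congr rfl fun i _ => by rw [(B.rhoP i).1, mul_add]
    rw [hF.1, e1]
    ring
  · intro x
    unfold Base.til
    have e1 : ∑ i, F (B.u i) * B.rho i (act δ x) =
        AdjoinRoot.root P * ∑ i, F (B.u i) * B.rho i x := by
      rw [Finset.mul_sum]
      exact Finset.sum_congr rfl fun i _ => by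
        rw [(B.rhoP i).2]
        ring
    rw [hF.2, e1]
    ring
  · intro x hx
    obtain ⟨Q, hQ⟩ := hΦ.dvdP
    have hsep : (X ^ m - 1 : (ZMod p)[X]).Separable := by
      rw [X_pow_sub_one_separable_iff]
      intro h
      rw [ZMod.natCast_eq_zero_iff] at h
      have h1 := Nat.dvd_gcd h (dvd_refl p)
      rw [hΦ.copm] at h1
      exact (Fact.out : p.Prime).one_lt.ne' (Nat.dvd_one.1 h1)
    have hPQ : IsCoprime P Q := by
      rw [hQ] at hsep
      exact hsep.isCoprime
    obtain ⟨a, b, hab⟩ := hPQ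
    have hmk : AdjoinRoot.mk P (b * Q) = 1 := by
      have e1 : b * Q = 1 - a * P := by
        rw [← hab]
        ring
      rw [e1, map_sub, map_one, map_mul, AdjoinRoot.mk_self, mul_zero, sub_zero]
    obtain ⟨g1, g2⟩ := pol_facts m δ hδ P Q b hQ x
    set x' := pol (b * Q) δ x with hx'
    have hxS : x' ∈ (up M B.S).unit M := pol_unit hstM δ _ x hx
    have hFx : ∀ G : Mˣ → AdjoinRoot P, IsP δ P G → G x' = G x := by
      intro G hG
      rw [hx', (f1 G hG).1, hmk, one_mul]
    choose c hc using fun i => AdjoinRoot.mk_surjective (B.rho i x)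
    set y := x' / ∏ i, pol (c i) δ (B.u i) with hy
    have hyS : y ∈ (up M B.S).unit M :=
      Subgroup.div_mem _ hxS (Subgroup.prod_mem _ fun i _ => pol_unit hstM δ _ _ (B.uS i))
    have hpw_mul : ∀ z w : Mˣ, Pw p z → Pw p w → Pw p (z * w) := by
      rintro _ _ ⟨z, rfl⟩ ⟨w, rfl⟩
      exact ⟨z * w, (mul_pow _ _ _).symm⟩
    have hpw_inv : ∀ z : Mˣ, Pw p z → Pw p z⁻¹ := by
      rintro _ ⟨z, rfl⟩
      exact ⟨z⁻¹, (inv_pow _ _).symm⟩
    have hpw_prod : ∀ (s : Finset (Fin B.r)) (z : Fin B.r → Mˣ), (∀ i ∈ s, Pw p (z i)) →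
        Pw p (∏ i ∈ s, z i) := by
      classical
      intro s z hz
      induction s using Finset.induction_on with
      | empty => exact ⟨1, by simp⟩
      | insert a s ha ih =>
        rw [Finset.prod_insert ha]
        exact hpw_mul _ _ (hz a (Finset.mem_insert_self _ _))
          (ih fun i hi => hz i (Finset.mem_insert_of_mem hi))
    have hyP : Pw p (pol P δ y) := by
      rw [hy, _root_.map_div, map_prod, div_eq_mul_inv]
      exact hpw_mul _ _ g1 (hpw_inv _ (hpw_prod _ _ fun i _ => g2 (c i) (B.u i) (B.uP i)))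
    have hG : ∀ G : Mˣ → AdjoinRoot P, IsP δ P G → G y = G x - ∑ i, G (B.u i) * B.rho i x := by
      intro G hG
      rw [hy, hom_div hG.1, hFx G hG, hom_prod' hG.1]
      congr 1
      refine Finset.sum_congr rfl fun i _ => ?_
      rw [(f1 G hG).1, hc]
      ring
    have hy0 : ∀ j, B.rho j y = 0 := by
      intro j
      rw [hG _ (B.rhoP j)]
      have e1 : ∑ i, B.rho j (B.u i) * B.rho i x = B.rho j x := by
        rw [Finset.sum_eq_single j]
        · rw [B.rhou, if_pos rfl, one_mul]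
        · intro i _ hij
          rw [B.rhou, if_neg (Ne.symm hij), zero_mul]
        · intro h
          exact absurd (Finset.mem_univ _) h
      rw [e1, sub_self]
    have hyw := B.rho0 y hyS hyP hy0
    have h5 := (f1 F hF).2 y hyw
    rw [hG F hF] at h5
    exact h5
  · intro x hx
    unfold Base.til
    rw [Finset.sum_eq_zero fun i _ => by rw [B.rhoL i x hx, mul_zero], sub_zero]
  · intro x y
    unfold Base.tilw
    have e1 : ∑ i, g (B.uw i) * B.rw i (x * y) =
        ∑ i, g (B.uw i) * B.rw i x + ∑ i, g (B.uw i) * B.rw i y := by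
      rw [← Finset.sum_add_distrib]
      exact Finset.sum_congr rfl fun i _ => by rw [(B.rwO i).1, mul_add]
    rw [hg.1, e1]
    ring
  · intro σ n hn x
    unfold Base.tilw
    have e1 : ∑ i, g (B.uw i) * B.rw i (act σ x) = n * ∑ i, g (B.uw i) * B.rw i x := by
      rw [Finset.mul_sum]
      exact Finset.sum_congr rfl fun i _ => by
        rw [(B.rwO i).2 σ n hn]
        ring
    rw [hg.2 σ n hn, e1]
    ring
  · intro x hx
    obtain ⟨a, ha1, ha2, ha3⟩ := o3 x
    have haS : a ∈ (up K₁ B.S).unit K₁ :=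
      (ha3 _ fun σ y hy => act_unit hstK σ y hy).1 hx
    set y := a * ∏ i, (B.uw i ^ (B.rw i a).val)⁻¹ with hy
    have hyS : y ∈ (up K₁ B.S).unit K₁ :=
      Subgroup.mul_mem _ haS (Subgroup.prod_mem _ fun i _ =>
        Subgroup.inv_mem _ (Subgroup.pow_mem _ (B.uwS i) _))
    have hOm_pow : ∀ (z w : K₁ˣ) (n : ℕ), OmType p K ε (z : K₁) → OmType p K ε (w : K₁) →
        OmType p K ε ((z * (w ^ n)⁻¹ : K₁ˣ) : K₁) := by
      intro z w n hz hw
      induction n with
      | zero => simpa using hz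
      | succ n ih =>
        have e1 : z * (w ^ (n + 1))⁻¹ = (z * (w ^ n)⁻¹) * w⁻¹ := by
          rw [pow_succ, mul_inv_rev, mul_comm w⁻¹, mul_assoc]
        rw [e1]
        exact (o5 _ _ ih (o5 _ _ hw hw).2).1
    have hOm : ∀ s : Finset (Fin B.s),
        OmType p K ε ((a * ∏ i ∈ s, (B.uw i ^ (B.rw i a).val)⁻¹ : K₁ˣ) : K₁) := by
      classical
      intro s
      induction s using Finset.induction_on with
      | empty => simpa using ha1
      | insert j s hj ih =>
        have e1 : a * ∏ i ∈ insert j s, (B.uw i ^ (B.rw i a).val)⁻¹ =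
            (a * ∏ i ∈ s, (B.uw i ^ (B.rw i a).val)⁻¹) * (B.uw j ^ (B.rw j a).val)⁻¹ := by
          rw [Finset.prod_insert hj, mul_comm ((B.uw j ^ (B.rw j a).val)⁻¹), mul_assoc]
        rw [e1]
        exact hOm_pow _ _ _ ih (B.uwO j)
    have hG : ∀ G : K₁ˣ → ZMod p, IsOm p K ε G →
        G y = G a - ∑ i, G (B.uw i) * B.rw i a := by
      intro G hG
      rw [hy, hG.1, hom_prod' hG.1, sub_eq_add_neg, ← Finset.sum_neg_distrib]
      congr 1
      refine Finset.sum_congr rfl fun i _ => ?_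
      rw [hom_inv hG.1, hom_pow hG.1, nsmul_eq_mul, ZMod.natCast_zmod_val, mul_comm]
    have hy0 : ∀ j, B.rw j y = 0 := by
      intro j
      rw [hG _ (B.rwO j)]
      have e1 : ∑ i, B.rw j (B.uw i) * B.rw i a = B.rw j a := by
        rw [Finset.sum_eq_single j]
        · rw [B.rwu, if_pos rfl, one_mul]
        · intro i _ hij
          rw [B.rwu, if_neg (Ne.symm hij), zero_mul]
        · intro h
          exact absurd (Finset.mem_univ _) h
      rw [e1, sub_self]
    have hyw := B.rw0 y hyS (hOm Finset.univ) hy0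
    have h5 := o2 g hg y hyw
    rw [hG g hg] at h5
    unfold Base.tilw
    rw [← ha2 g hg, Finset.sum_congr rfl fun i _ => by rw [← ha2 _ (B.rwO i)]]
    exact h5
  · intro x hx
    unfold Base.tilw
    rw [Finset.sum_eq_zero fun i _ => by rw [B.rwL i x hx, mul_zero], sub_zero]
  · unfold Base.R
    rw [hfr]
    refine (f2 _ fun x y => ?_).1
    rw [map_mul, B.thh v hv]
  · unfold Base.G
    refine (o1 _ fun x y => ?_).1
    rw [map_mul, B.thh v hv]

end Pool.Agent.Helper30.PP
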