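import Pool.Agent.Helper17.PP.GoalsC2

/-! Packet PP-C_OSB of project PP (helper17, MP_fc6b1e_nt). -/

set_option autoImplicit false

namespace Pool.Agent.Helper30.PP

open Finset
open Pool.Agent.Helper17.PP

variable {p : ℕ} {B B₀ k U Λ C : Type} [Field k] [AddCommGroup U] [Module k U]
    [AddCommGroup Λ] [Module k Λ] [AddCommGroup C] (S : Sys p B B₀ k U Λ C)

lemma mem_blk (j : ℕ) (q : B) : q ∈ S.blk j ↔ S.bl q = j := by
  unfold Sys.blk
  rw [Finset.mem_filter, Set.Finite.mem_toFinset]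
  constructor
  · exact fun h => h.2
  · intro h
    refine ⟨?_, h⟩
    show S.N q ≤ 2 ^ (j + 1)
    have h1 := Nat.lt_pow_succ_log_self (b := 2) (by norm_num) (S.N q)
    rw [← h]
    exact h1.le

open Classical in
lemma rs_insert (b : Finset B) (q P₁ : B) (h : ¬ S.spl P₁) :
    S.rs (insert P₁ b) q = S.rs b q := by
  unfold Sys.rs
  ext q'
  simp only [mem_filter, mem_erase, mem_insert]
  constructor
  · rintro ⟨⟨h1, h2⟩, h3, h4⟩
    rcases h2 with rfl | h2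
    · exact absurd h3 h
    · exact ⟨⟨h1, h2⟩, h3, h4⟩
  · rintro ⟨⟨h1, h2⟩, h3, h4⟩
    exact ⟨⟨h1, Or.inr h2⟩, h3, h4⟩

open Classical in
lemma rt_insert (E : ℕ) (b : Finset B) (q P₁ : B) (h : ¬ S.spl P₁) :
    S.rt E (insert P₁ b) q = S.rt E b q := by
  unfold Sys.rt
  ext q'
  simp only [mem_filter, mem_erase, mem_insert]
  constructor
  · rintro ⟨⟨h1, h2⟩, h3, h4⟩
    rcases h2 with rfl | h2
    · exact absurd h3 h
    · exact ⟨⟨h1, h2⟩, h3, h4⟩
  · rintro ⟨⟨h1, h2⟩, h3, h4⟩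
    exact ⟨⟨h1, Or.inr h2⟩, h3, h4⟩

open Classical in
lemma trc_insert (b : Finset B) (q P₁ : B) (t : k) (c : B → k) (h : ¬ S.spl P₁) :
    S.trc (insert P₁ b) q t c = S.trc b q t c := by
  unfold Sys.trc
  rw [rs_insert S b q P₁ h]

lemma trc_self (b : Finset B) (q : B) (t : k) (c : B → k) : S.trc b q t c q = t := by
  simp [Sys.trc]

open Classical in
lemma trc_rs (b : Finset B) (q q' : B) (t : k) (c : B → k) (h : q' ∈ S.rs b q) :
    S.trc b q t c q' = c q' := by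
  have h1 : q' ≠ q := by
    unfold Sys.rs at h
    exact (mem_erase.1 (mem_filter.1 h).1).1
  simp [Sys.trc, h1, h]

open Classical in
lemma trc_zero (b : Finset B) (q q' : B) (t : k) (c : B → k) (h1 : q' ≠ q)
    (h : ¬ (S.spl q' ∧ S.bl q' < S.bl q)) : S.trc b q t c q' = 0 := by
  have h2 : q' ∉ S.rs b q := by
    intro h3
    unfold Sys.rs at h3
    exact h (mem_filter.1 h3).2
  simp [Sys.trc, h1, h2]

open Classical in
lemma R_insert [Algebra (ZMod p) k] (b : Finset B) (x : U) (τ : B → k) (q' P₁ : B) (hP : P₁ ∉ b)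
    (hq : q' ≠ P₁) (hτ : τ P₁ = 0) :
    S.R (insert P₁ b) x τ q' = S.R b x τ q' + τ q' * algebraMap (ZMod p) k (S.kap q' P₁) := by
  unfold Sys.R
  have h1 : P₁ ∉ b.erase q' := fun h => hP (mem_of_mem_erase h)
  rw [erase_insert_of_ne (Ne.symm hq), sum_insert h1, sum_insert h1, hτ]
  ring

open Classical in
/-- the summand of `osc` -/
noncomputable def TT [Algebra (ZMod p) k] [Fact p.Prime]
    (ψ : AddChar k ℂ) (ψ₁ : AddChar (ZMod p) ℂ) (E : ℕ) (b : Finset B) (q : B) (s : ZMod p)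
    (x : U) (t : k) (c y : B → k) : ℂ :=
  if S.lam₀ x + ∑ q' ∈ b, S.lam q' (S.trc b q t c q') = 0 ∧
          ∀ q' ∈ S.rt E b q, S.R b x (S.trc b q t c) q' = 0 then
        (∑ w : ZMod p with t * algebraMap (ZMod p) k w = S.R b x (S.trc b q t c) q,
          ψ₁ (s * w)) * ∏ q' ∈ S.rs b q, ψ (y q' * S.R b x (S.trc b q t c) q')
      else 0

open Classical in
lemma osc_eq [Algebra (ZMod p) k] [Fact p.Prime] [Fintype k] [Fintype U]
    (ψ : AddChar k ℂ) (ψ₁ : AddChar (ZMod p) ℂ) (E : ℕ) (P b : Finset B) (q : B) (s : ZMod p) :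
    S.osc ψ ψ₁ E P b q s =
      ((Fintype.card k : ℂ) ^ (S.rs b q).card / ((lab k P).card : ℂ) ^ 2) *
    ∑ x : U, ∑ t ∈ (univ : Finset k).erase 0, ∑ c ∈ lab k P, ∑ y ∈ lab k P,
      TT S ψ ψ₁ E b q s x t c y := by
  unfold Sys.osc TT
  congr 1
  refine sum_congr rfl fun x _ => ?_
  refine sum_congr ?_ fun t _ => rfl
  ext t
  simp

lemma TT_norm [Algebra (ZMod p) k] [Fact p.Prime] [Finite k]
    (ψ : AddChar k ℂ) (ψ₁ : AddChar (ZMod p) ℂ) (E : ℕ) (b : Finset B) (q : B) (s : ZMod p)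
    (x : U) (t : k) (c y : B → k) (ht : t ≠ 0) : ‖TT S ψ ψ₁ E b q s x t c y‖ ≤ 1 := by
  classical
  unfold TT
  split_ifs with h
  · rw [norm_mul, norm_prod]
    have h2 : ∏ q' ∈ S.rs b q, ‖ψ (y q' * S.R b x (S.trc b q t c) q')‖ = 1 :=
      prod_eq_one fun q' _ => AddChar.norm_apply _ _
    rw [h2, mul_one]
    refine (norm_sum_le _ _).trans ?_
    rw [sum_congr rfl fun w _ => AddChar.norm_apply ψ₁ (s * w)]
    simp only [sum_const, nsmul_eq_mul, mul_one]
    have h3 : (univ.filter fun w : ZMod p => t * algebraMap (ZMod p) k w =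
        S.R b x (S.trc b q t c) q).card ≤ 1 := by
      refine card_le_one.2 fun w hw w' hw' => ?_
      have h4 := (mem_filter.1 hw).2
      have h5 := (mem_filter.1 hw').2
      exact (algebraMap (ZMod p) k).injective (mul_left_cancel₀ ht (h4.trans h5.symm))
    exact_mod_cast h3
  · simp

open Classical in
lemma TT_insert [Algebra (ZMod p) k] [Fact p.Prime]
    (ψ : AddChar k ℂ) (ψ₁ : AddChar (ZMod p) ℂ) (E : ℕ) (b : Finset B) (q P₁ : B) (s : ZMod p)
    (x : U) (t : k) (c y : B → k) (hP : P₁ ∉ b) (hq : S.spl q)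
    (hP₁ : ¬ S.spl P₁) :
    TT S ψ ψ₁ E (insert P₁ b) q s x t c y = TT S ψ ψ₁ E b q s x t c y *
      (ψ₁ (s * S.kap q P₁) *
        ∏ q' ∈ S.rs b q, ψ (y q' * (c q' * algebraMap (ZMod p) k (S.kap q' P₁)))) := by
  have hne : P₁ ≠ q := by
    rintro rfl
    exact hP₁ hq
  have hτ : S.trc b q t c P₁ = 0 := trc_zero S b q P₁ t c hne fun h => hP₁ h.1
  unfold TT
  rw [rs_insert S b q P₁ hP₁, rt_insert S E b q P₁ hP₁, trc_insert S b q P₁ t c hP₁,
    sum_insert hP, hτ, map_zero, zero_add]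
  have h1 : (∀ q' ∈ S.rt E b q, S.R (insert P₁ b) x (S.trc b q t c) q' = 0) ↔
      ∀ q' ∈ S.rt E b q, S.R b x (S.trc b q t c) q' = 0 := by
    refine forall₂_congr fun q' hq' => ?_
    have h2 := hq'
    unfold Sys.rt at h2
    rw [mem_filter, mem_erase] at h2
    rw [R_insert S b x _ q' P₁ hP (by
      rintro rfl
      exact hP₁ h2.2.1) hτ, trc_zero S b q q' t c h2.1.1 (by omega), zero_mul, add_zero]
  simp only [h1]
  split_ifs with h
  · rw [R_insert S b x _ q P₁ hP (Ne.symm hne) hτ, trc_self]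
    have h3 : (∑ w : ZMod p with t * algebraMap (ZMod p) k w =
        S.R b x (S.trc b q t c) q + t * algebraMap (ZMod p) k (S.kap q P₁), ψ₁ (s * w)) =
        (∑ w : ZMod p with t * algebraMap (ZMod p) k w = S.R b x (S.trc b q t c) q,
          ψ₁ (s * w)) * ψ₁ (s * S.kap q P₁) := by
      rw [sum_filter, sum_filter, sum_mul, ← Equiv.sum_comp (Equiv.addRight (S.kap q P₁))]
      refine sum_congr rfl fun w _ => ?_
      simp only [Equiv.coe_addRight, map_add, mul_add, add_left_inj, AddChar.map_add_eq_mul]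
      split_ifs <;> simp
    have h4 : ∏ q' ∈ S.rs b q, ψ (y q' * S.R (insert P₁ b) x (S.trc b q t c) q') =
        (∏ q' ∈ S.rs b q, ψ (y q' * S.R b x (S.trc b q t c) q')) *
        ∏ q' ∈ S.rs b q, ψ (y q' * (c q' * algebraMap (ZMod p) k (S.kap q' P₁))) := by
      rw [← prod_mul_distrib]
      refine prod_congr rfl fun q' hq' => ?_
      have h2 := hq'
      unfold Sys.rs at h2
      rw [mem_filter, mem_erase] at h2
      rw [R_insert S b x _ q' P₁ hP (by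
        rintro rfl
        exact hP₁ h2.2.1) hτ, trc_rs S b q q' t c hq', mul_add, AddChar.map_add_eq_mul]
    rw [h3, h4]
    ring
  · simp

open Classical in
/-- the split primes of `r` in the blocks below `j` -/
noncomputable def rsj (j : ℕ) (r : Finset B) : Finset B :=
  r.filter fun q' => S.spl q' ∧ S.bl q' < j

open Classical in
lemma rs_eq (j : ℕ) (r : Finset B) (q : B) (hq : q ∉ r) (hj : S.bl q = j) :
    S.rs (insert q r) q = rsj S j r := by
  unfold Sys.rs rsj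
  rw [erase_insert hq, hj]

/-- the conditions on `r` -/
def cR (i j : ℕ) (r : Finset B) : Prop :=
  Set.InjOn S.bs (r : Set B) ∧ (∀ q' ∈ r, S.spl q' → S.bl q' ≠ j) ∧
    ∀ q' ∈ r, ¬ S.spl q' → S.bl q' < i

open Classical in
/-- the condition on the norms -/
def sm (E j : ℕ) (r : Finset B) (P₁ : B) : Prop :=
  ∀ D ⊆ insert P₁ r, (∀ q' ∈ D, S.bl q' ≤ th E j) → S.nm D < 2 ^ tb E j

open Classical in
lemma cond_iff (E i j : ℕ) (r : Finset B) (q P₁ : B) (hq : q ∉ r) (hP : P₁ ∉ insert q r) :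
    (S.Fam (insert P₁ (insert q r)) ∧ (S.Wt E (insert P₁ (insert q r)) q ∧ S.bl q = j) ∧
      (S.Top (insert P₁ (insert q r)) P₁ ∧ S.bl P₁ = i)) ↔
    cR S i j r ∧ (S.spl q ∧ S.bl q = j) ∧ (¬ S.spl P₁ ∧ S.bl P₁ = i) ∧ sm S E j r P₁ ∧
      S.cls P₁ + (S.cls q + ∑ q' ∈ r, S.cls q') = S.cl₀ := by
  have hne : P₁ ≠ q := fun h => hP (h ▸ mem_insert_self _ _)
  have hPr : P₁ ∉ r := fun h => hP (mem_insert_of_mem h)
  constructor
  · rintro ⟨⟨f1, f2⟩, ⟨⟨-, w2, w3, w4⟩, hj⟩, ⟨⟨-, t2, t3⟩, hi⟩⟩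
    rw [sum_insert hP, sum_insert hq] at f2
    refine ⟨⟨?_, ?_, ?_⟩, ⟨w2, hj⟩, ⟨t2, hi⟩, ?_, f2⟩
    · refine f1.mono ?_
      intro z hz
      simp only [coe_insert, Set.mem_insert_iff]
      exact Or.inr (Or.inr hz)
    · intro q' hq' hs
      rw [← hj]
      refine w3 q' (mem_insert_of_mem (mem_insert_of_mem hq')) ?_ hs
      rintro rfl
      exact hq hq'
    · intro q' hq' hs
      rw [← hi]
      refine t3 q' (mem_insert_of_mem (mem_insert_of_mem hq')) hs ?_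
      rintro rfl
      exact hPr hq'
    · intro D hD hb
      rw [← hj] at hb ⊢
      refine w4 D (hD.trans (insert_subset_insert _ (subset_insert _ _))) ?_ hb
      intro h
      rcases mem_insert.1 (hD h) with h1 | h1
      · exact hne h1.symm
      · exact hq h1
  · rintro ⟨⟨c1, c2, c3⟩, ⟨w2, hj⟩, ⟨t2, hi⟩, hsm, f2⟩
    have hNbl : ∀ a b, S.bs a = S.bs b → S.bl a = S.bl b := fun a b h => by
      unfold Sys.bl
      rw [S.bsN a b h]
    have hqr : ∀ q' ∈ r, S.bs q ≠ S.bs q' := fun q' hq' h =>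
      c2 q' hq' ((S.bsS q q' h).1 w2) ((hNbl q q' h).symm.trans hj)
    have hPr' : ∀ q' ∈ r, S.bs P₁ ≠ S.bs q' := fun q' hq' h => by
      have h1 := c3 q' hq' (fun h2 => t2 ((S.bsS P₁ q' h).2 h2))
      have h2 := hNbl P₁ q' h
      omega
    have hPq : S.bs P₁ ≠ S.bs q := fun h => t2 ((S.bsS P₁ q h).2 w2)
    refine ⟨⟨?_, ?_⟩, ⟨⟨mem_insert_of_mem (mem_insert_self _ _), w2, ?_, ?_⟩, hj⟩,
      ⟨⟨mem_insert_self _ _, t2, ?_⟩, hi⟩⟩
    · rw [coe_insert, coe_insert, Set.injOn_insert (by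
        simp only [Set.mem_insert_iff, not_or]
        exact ⟨hne, hPr⟩), Set.injOn_insert hq]
      refine ⟨⟨c1, ?_⟩, ?_⟩
      · rintro ⟨q', hq', h⟩
        exact hqr q' hq' h.symm
      · rintro ⟨q', hq', h⟩
        rcases hq' with rfl | hq'
        · exact hPq h.symm
        · exact hPr' q' hq' h.symm
    · rw [sum_insert hP, sum_insert hq]
      exact f2
    · intro q' hq' hne' hs
      rcases mem_insert.1 hq' with rfl | hq'
      · exact absurd hs t2
      rcases mem_insert.1 hq' with rfl | hq'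
      · exact absurd rfl hne'
      · rw [hj]
        exact c2 q' hq' hs
    · intro D hD hqD hb
      rw [hj] at hb ⊢
      refine hsm D ?_ hb
      intro z hz
      rcases mem_insert.1 (hD hz) with h1 | h1
      · exact mem_insert.2 (Or.inl h1)
      rcases mem_insert.1 h1 with h1 | h1
      · exact absurd (h1 ▸ hz) hqD
      · exact mem_insert_of_mem h1
    · intro P' hP' hs hne'
      rcases mem_insert.1 hP' with h1 | h1
      · exact absurd h1 hne'
      rcases mem_insert.1 h1 with h1 | h1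
      · exact absurd (h1 ▸ w2) hs
      · rw [hi]
        exact c3 P' h1 hs

open Classical in
/-- the summand for fixed `x, t, c, y` -/
noncomputable def gg [Algebra (ZMod p) k] [Fact p.Prime] [Fintype k]
    (ψ : AddChar k ℂ) (ψ₁ : AddChar (ZMod p) ℂ) (E i j : ℕ) (s : ZMod p) (X : ℝ)
    (x : U) (t : k) (c y : B → k) (b : Finset B) (q P₁ : B) : ℂ :=
  if S.Fam b ∧ (S.Wt E b q ∧ S.bl q = j) ∧ (S.Top b P₁ ∧ S.bl P₁ = i) then
    (Fintype.card k : ℂ) ^ (S.rs b q).card * TT S ψ ψ₁ E b q s x t c y *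
      (Real.exp (-(S.nm b / X)) : ℂ)
  else 0

open Classical in
/-- the coefficient of `P₁` -/
noncomputable def al [Algebra (ZMod p) k]
    (ψ : AddChar k ℂ) (E j : ℕ) (c y : B → k) (P r : Finset B) (γ : C) (P₁ : B) : ℂ :=
  if P₁ ∈ P \ r ∧ S.cls P₁ = S.cl₀ - γ - ∑ q' ∈ r, S.cls q' ∧ sm S E j r P₁ then
    ∏ q' ∈ rsj S j r, ψ (y q' * (c q' * algebraMap (ZMod p) k (S.kap q' P₁)))
  else 0

open Classical in
/-- the coefficient of `q` -/
noncomputable def be [Algebra (ZMod p) k] [Fact p.Prime]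
    (ψ : AddChar k ℂ) (ψ₁ : AddChar (ZMod p) ℂ) (E : ℕ) (s : ZMod p)
    (x : U) (t : k) (c y : B → k) (P r : Finset B) (γ : C) (q : B) : ℂ :=
  if q ∈ P \ r ∧ S.cls q = γ then TT S ψ ψ₁ E (insert q r) q s x t c y else 0

lemma nm_pos (r : Finset B) : 0 < S.nm r := by
  unfold Sys.nm
  exact prod_pos fun q _ => by
    have := S.two_le q
    omega

open Classical in
lemma gg_eq [Algebra (ZMod p) k] [Fact p.Prime] [Fintype k] [Fintype C]
    (ψ : AddChar k ℂ) (ψ₁ : AddChar (ZMod p) ℂ) (E i j : ℕ) (s : ZMod p) (X : ℝ) (hX : 0 < X)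
    (x : U) (t : k) (c y : B → k) (P r : Finset B) (hcR : cR S i j r) (q P₁ : B)
    (hq : q ∈ P \ r) (hP : P₁ ∈ P \ insert q r) :
    gg S ψ ψ₁ E i j s X x t c y (insert P₁ (insert q r)) q P₁ =
      if q ∈ (S.blk j).filter (fun q => S.spl q) then
        (if P₁ ∈ (S.blk i).filter (fun P => ¬ S.spl P) then
          ∑ γ : C, (Fintype.card k : ℂ) ^ (rsj S j r).card *
            (al S ψ E j c y P r γ P₁ * be S ψ ψ₁ E s x t c y P r γ q * ψ₁ (s * S.kap q P₁) *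
              (Real.exp (-((S.N q : ℝ) * S.N P₁ / (X / S.nm r))) : ℂ))
        else 0) else 0 := by
  have hqr : q ∉ r := (mem_sdiff.1 hq).2
  have hP' := mem_sdiff.1 hP
  have hPr : P₁ ∈ P \ r := mem_sdiff.2 ⟨hP'.1, fun h => hP'.2 (mem_insert_of_mem h)⟩
  unfold gg
  rw [if_congr (cond_iff S E i j r q P₁ hqr hP'.2) rfl rfl]
  simp only [mem_filter, mem_blk]
  by_cases h1 : S.bl q = j ∧ S.spl q
  · rw [if_pos h1]
    by_cases h2 : S.bl P₁ = i ∧ ¬ S.spl P₁
    · rw [if_pos h2]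
      rw [sum_eq_single (S.cls q)]
      · unfold al be
        rw [if_pos (⟨hq, rfl⟩ : q ∈ P \ r ∧ S.cls q = S.cls q)]
        by_cases h3 : sm S E j r P₁ ∧ S.cls P₁ + (S.cls q + ∑ q' ∈ r, S.cls q') = S.cl₀
        · have h4 : S.cls P₁ = S.cl₀ - S.cls q - ∑ q' ∈ r, S.cls q' := by
            rw [← h3.2]
            abel
          rw [if_pos ⟨hcR, ⟨h1.2, h1.1⟩, ⟨h2.2, h2.1⟩, h3.1, h3.2⟩, if_pos ⟨hPr, h4, h3.1⟩]
          rw [TT_insert S ψ ψ₁ E (insert q r) q P₁ s x t c y hP'.2 h1.2 h2.2,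
            rs_insert S _ q P₁ h2.2, rs_eq S j r q hqr h1.1]
          have h5 : S.nm (insert P₁ (insert q r)) = S.N P₁ * (S.N q * S.nm r) := by
            unfold Sys.nm
            rw [prod_insert hP'.2, prod_insert hqr]
          have h6 : ((S.nm (insert P₁ (insert q r)) : ℕ) : ℝ) / X =
              (S.N q : ℝ) * S.N P₁ / (X / S.nm r) := by
            have h7 : (S.nm r : ℝ) ≠ 0 := by exact_mod_cast (nm_pos S r).ne'
            rw [h5]
            push_cast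
            field_simp
          rw [h6]
          ring
        · rw [if_neg (fun h => h3 ⟨h.2.2.2.1, h.2.2.2.2⟩), if_neg]
          · ring
          · rintro ⟨-, h4, h5⟩
            refine h3 ⟨h5, ?_⟩
            rw [h4]
            abel
      · intro γ _ hγ
        unfold be
        rw [if_neg (fun h => hγ h.2.symm)]
        ring
      · intro h
        exact absurd (mem_univ _) h
    · rw [if_neg h2, if_neg]
      rintro ⟨-, -, h3, -⟩
      exact h2 ⟨h3.2, h3.1⟩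
  · rw [if_neg h1, if_neg]
    rintro ⟨-, h3, -⟩
    exact h1 ⟨h3.2, h3.1⟩

open Classical in
lemma sum_swap {M : Type} [AddCommMonoid M] (A Bj : Finset B) (F : B → M) :
    ∑ q ∈ A, (if q ∈ Bj then F q else 0) = ∑ q ∈ Bj, if q ∈ A then F q else 0 := by
  rw [sum_ite_mem, sum_ite_mem, inter_comm]

lemma al_norm [Algebra (ZMod p) k] [Finite k]
    (ψ : AddChar k ℂ) (E j : ℕ) (c y : B → k) (P r : Finset B) (γ : C) (P₁ : B) :
    ‖al S ψ E j c y P r γ P₁‖ ≤ 1 := by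
  unfold al
  split_ifs
  · rw [norm_prod]
    rw [prod_eq_one fun q' _ => AddChar.norm_apply _ _]
  · simp

lemma be_norm [Algebra (ZMod p) k] [Fact p.Prime] [Finite k]
    (ψ : AddChar k ℂ) (ψ₁ : AddChar (ZMod p) ℂ) (E : ℕ) (s : ZMod p)
    (x : U) (t : k) (ht : t ≠ 0) (c y : B → k) (P r : Finset B) (γ : C) (q : B) :
    ‖be S ψ ψ₁ E s x t c y P r γ q‖ ≤ 1 := by
  unfold be
  split_ifs
  · exact TT_norm S ψ ψ₁ E _ q s x t c y ht
  · simp

open Classical in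
lemma inner_eq [Algebra (ZMod p) k] [Fact p.Prime] [Fintype k] [Fintype C]
    (ψ : AddChar k ℂ) (ψ₁ : AddChar (ZMod p) ℂ) (E i j : ℕ) (s : ZMod p) (X : ℝ) (hX : 0 < X)
    (x : U) (t : k) (c y : B → k) (P r : Finset B) (hcR : cR S i j r) :
    ∑ q ∈ P \ r, ∑ P₁ ∈ P \ insert q r,
      gg S ψ ψ₁ E i j s X x t c y (insert P₁ (insert q r)) q P₁ =
    ∑ γ : C, (Fintype.card k : ℂ) ^ (rsj S j r).card *
      ∑ P₁ ∈ S.blk i with ¬ S.spl P₁, ∑ q ∈ S.blk j with S.spl q,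
        al S ψ E j c y P r γ P₁ * be S ψ ψ₁ E s x t c y P r γ q * ψ₁ (s * S.kap q P₁) *
              (Real.exp (-((S.N q : ℝ) * S.N P₁ / (X / S.nm r))) : ℂ) := by
  set h : B → B → ℂ := fun q P₁ => ∑ γ : C, (Fintype.card k : ℂ) ^ (rsj S j r).card *
            (al S ψ E j c y P r γ P₁ * be S ψ ψ₁ E s x t c y P r γ q * ψ₁ (s * S.kap q P₁) *
              (Real.exp (-((S.N q : ℝ) * S.N P₁ / (X / S.nm r))) : ℂ)) with hh
  have hq0 : ∀ q P₁, q ∉ P \ r → h q P₁ = 0 := by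
    intro q P₁ hq
    rw [hh]
    refine sum_eq_zero fun γ _ => ?_
    unfold be
    rw [if_neg (fun h => hq h.1)]
    ring
  have hP0 : ∀ q P₁, P₁ ∉ P \ r → h q P₁ = 0 := by
    intro q P₁ hq
    rw [hh]
    refine sum_eq_zero fun γ _ => ?_
    unfold al
    rw [if_neg (fun h => hq h.1)]
    ring
  have e1 : ∑ q ∈ P \ r, ∑ P₁ ∈ P \ insert q r,
      gg S ψ ψ₁ E i j s X x t c y (insert P₁ (insert q r)) q P₁ =
      ∑ q ∈ P \ r, if q ∈ (S.blk j).filter (fun q => S.spl q) then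
        ∑ P₁ ∈ P \ r, (if P₁ ∈ (S.blk i).filter (fun P => ¬ S.spl P) then h q P₁ else 0)
        else 0 := by
    refine sum_congr rfl fun q hq => ?_
    have e2 : ∑ P₁ ∈ P \ insert q r,
        gg S ψ ψ₁ E i j s X x t c y (insert P₁ (insert q r)) q P₁ =
        ∑ P₁ ∈ P \ insert q r, (if q ∈ (S.blk j).filter (fun q => S.spl q) then
          (if P₁ ∈ (S.blk i).filter (fun P => ¬ S.spl P) then h q P₁ else 0) else 0) :=
      sum_congr rfl fun P₁ hP => gg_eq S ψ ψ₁ E i j s X hX x t c y P r hcR q P₁ hq hP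
    rw [e2]
    split_ifs with h1
    · refine sum_subset (sdiff_subset_sdiff subset_rfl (subset_insert _ _)) ?_
      intro P₁ h2 h3
      have h4 : P₁ = q := by
        by_contra h4
        refine h3 (mem_sdiff.2 ⟨(mem_sdiff.1 h2).1, fun h5 => ?_⟩)
        rcases mem_insert.1 h5 with h6 | h6
        · exact h4 h6
        · exact (mem_sdiff.1 h2).2 h6
      rw [if_neg]
      rw [h4]
      intro h5
      exact (mem_filter.1 h5).2 (mem_filter.1 h1).2
    · simp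
  rw [e1, sum_swap]
  have e3 : ∀ q ∈ (S.blk j).filter (fun q => S.spl q),
      (if q ∈ P \ r then ∑ P₁ ∈ P \ r,
        (if P₁ ∈ (S.blk i).filter (fun P => ¬ S.spl P) then h q P₁ else 0) else 0) =
      ∑ P₁ ∈ (S.blk i).filter (fun P => ¬ S.spl P), h q P₁ := by
    intro q _
    split_ifs with h1
    · rw [sum_swap]
      refine sum_congr rfl fun P₁ _ => ?_
      split_ifs with h2
      · rfl
      · exact (hP0 q P₁ h2).symm
    · exact (sum_eq_zero fun P₁ _ => hq0 q P₁ h1).symm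
  rw [sum_congr rfl e3, sum_comm]
  rw [hh]
  simp only [mul_sum]
  rw [sum_comm]
  have e4 : ∀ q ∈ (S.blk j).filter (fun q => S.spl q), True := fun _ _ => trivial
  calc _ = ∑ q ∈ (S.blk j).filter (fun q => S.spl q), ∑ γ : C,
      ∑ P₁ ∈ (S.blk i).filter (fun P => ¬ S.spl P), (Fintype.card k : ℂ) ^ (rsj S j r).card *
            (al S ψ E j c y P r γ P₁ * be S ψ ψ₁ E s x t c y P r γ q * ψ₁ (s * S.kap q P₁) *
              (Real.exp (-((S.N q : ℝ) * S.N P₁ / (X / S.nm r))) : ℂ)) :=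
        sum_congr rfl fun q _ => sum_comm
    _ = _ := by
      rw [sum_comm]
      exact sum_congr rfl fun γ _ => sum_comm

open Classical in
lemma inner_le [Algebra (ZMod p) k] [Fact p.Prime] [Fintype k] [Fintype C]
    (ψ : AddChar k ℂ) (ψ₁ : AddChar (ZMod p) ℂ) (g : ℝ → ℝ) (K : ℕ) (hH : S.Hyp ψ ψ₁ g K)
    (E i j : ℕ) (hi : 1 ≤ i) (hj : 1 ≤ j) (s : ZMod p) (hs : s ≠ 0) (X : ℝ) (hX : 0 < X)
    (x : U) (t : k) (ht : t ≠ 0) (c y : B → k) (P r : Finset B) :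
    ‖∑ q ∈ P \ r, ∑ P₁ ∈ P \ insert q r,
      gg S ψ ψ₁ E i j s X x t c y (insert P₁ (insert q r)) q P₁‖ ≤
    Fintype.card C * ((Fintype.card k : ℝ) ^ r.card *
      (K * 2 ^ (i + j) * (i + j) ^ K * (2 : ℝ) ^ (-(min i j : ℝ) / K) *
        Real.exp (-(S.nm r / (2 * X / 2 ^ (i + j)))))) := by
  have hnm : (0 : ℝ) < S.nm r := by exact_mod_cast nm_pos S r
  by_cases hcR : cR S i j r
  · rw [inner_eq S ψ ψ₁ E i j s X hX x t c y P r hcR]
    refine (norm_sum_le _ _).trans ?_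
    have h1 : ∀ γ ∈ (univ : Finset C), ‖(Fintype.card k : ℂ) ^ (rsj S j r).card *
      ∑ P₁ ∈ S.blk i with ¬ S.spl P₁, ∑ q ∈ S.blk j with S.spl q,
        al S ψ E j c y P r γ P₁ * be S ψ ψ₁ E s x t c y P r γ q * ψ₁ (s * S.kap q P₁) *
              (Real.exp (-((S.N q : ℝ) * S.N P₁ / (X / S.nm r))) : ℂ)‖ ≤
        (Fintype.card k : ℝ) ^ r.card *
      (K * 2 ^ (i + j) * (i + j) ^ K * (2 : ℝ) ^ (-(min i j : ℝ) / K) *
        Real.exp (-(S.nm r / (2 * X / 2 ^ (i + j))))) := by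
      intro γ _
      rw [norm_mul, norm_pow, Complex.norm_natCast]
      have h2 := hH.bl₂ i j s (al S ψ E j c y P r γ) (be S ψ ψ₁ E s x t c y P r γ)
        (X / S.nm r) hi hj hs (by positivity) (al_norm S ψ E j c y P r γ)
        (be_norm S ψ ψ₁ E s x t ht c y P r γ)
      have h3 : (2 : ℝ) ^ (i + j) / (2 * (X / S.nm r)) = S.nm r / (2 * X / 2 ^ (i + j)) := by
        field_simp
      rw [h3] at h2
      have h4 : (1 : ℝ) ≤ Fintype.card k := by exact_mod_cast Fintype.card_pos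
      have h5 : (rsj S j r).card ≤ r.card := card_filter_le _ _
      exact mul_le_mul (pow_le_pow_right₀ h4 h5) h2 (norm_nonneg _) (by positivity)
    refine (sum_le_sum h1).trans ?_
    rw [sum_const, nsmul_eq_mul, card_univ]
  · have h1 : ∑ q ∈ P \ r, ∑ P₁ ∈ P \ insert q r,
        gg S ψ ψ₁ E i j s X x t c y (insert P₁ (insert q r)) q P₁ = 0 := by
      refine sum_eq_zero fun q hq => sum_eq_zero fun P₁ hP => ?_
      unfold gg
      rw [if_neg]
      rw [cond_iff S E i j r q P₁ (mem_sdiff.1 hq).2 (mem_sdiff.1 hP).2]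
      exact fun h => hcR h.1
    rw [h1, norm_zero]
    positivity

open Classical in
lemma decomp (hdec : C_DEC) (P : Finset B) (G : Finset B → B → B → ℂ)
    (hG : ∀ b q, G b q q = 0) :
    ∑ b ∈ P.powerset, ∑ q ∈ b, ∑ P₁ ∈ b, G b q P₁ =
      ∑ r ∈ P.powerset, ∑ q ∈ P \ r, ∑ P₁ ∈ P \ insert q r,
        G (insert P₁ (insert q r)) q P₁ := by
  have hd := (hdec B P).1 ℂ
  have e1 := hd (fun P₁ b₀ => ∑ q ∈ b₀, G (insert P₁ b₀) q P₁)
  have e2 := hd (fun q r => ∑ P₁ ∈ P \ insert q r, G (insert P₁ (insert q r)) q P₁)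
  calc _ = ∑ b ∈ P.powerset, ∑ P₁ ∈ b, ∑ q ∈ b, G b q P₁ :=
        sum_congr rfl fun b _ => sum_comm
    _ = ∑ b ∈ P.powerset, ∑ P₁ ∈ b, ∑ q ∈ b.erase P₁, G (insert P₁ (b.erase P₁)) q P₁ := by
        refine sum_congr rfl fun b _ => sum_congr rfl fun P₁ hP₁ => ?_
        rw [insert_erase hP₁, ← add_sum_erase _ _ hP₁, hG, zero_add]
    _ = ∑ b₀ ∈ P.powerset, ∑ P₁ ∈ P \ b₀, ∑ q ∈ b₀, G (insert P₁ b₀) q P₁ := e1
    _ = ∑ b₀ ∈ P.powerset, ∑ q ∈ b₀, ∑ P₁ ∈ P \ insert q (b₀.erase q),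
          G (insert P₁ (insert q (b₀.erase q))) q P₁ := by
        refine sum_congr rfl fun b₀ _ => ?_
        rw [sum_comm]
        refine sum_congr rfl fun q hq => ?_
        rw [insert_erase hq]
    _ = _ := e2

open Classical in
lemma fixed_le (hdec : C_DEC) [Algebra (ZMod p) k] [Fact p.Prime] [Fintype k] [Fintype C]
    (ψ : AddChar k ℂ) (ψ₁ : AddChar (ZMod p) ℂ) (g : ℝ → ℝ) (K : ℕ) (hH : S.Hyp ψ ψ₁ g K)
    (E i j : ℕ) (hi : 1 ≤ i) (hj : 1 ≤ j) (s : ZMod p) (hs : s ≠ 0) (X : ℝ) (hX : 0 < X)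
    (x : U) (t : k) (ht : t ≠ 0) (c y : B → k) (P : Finset B) :
    ‖∑ b ∈ P.powerset with S.Fam b, ∑ q ∈ b with (S.Wt E b q ∧ S.bl q = j),
      ∑ P₁ ∈ b with (S.Top b P₁ ∧ S.bl P₁ = i),
      (Fintype.card k : ℂ) ^ (S.rs b q).card * TT S ψ ψ₁ E b q s x t c y *
      (Real.exp (-(S.nm b / X)) : ℂ)‖ ≤
    ∑ r ∈ P.powerset, Fintype.card C * ((Fintype.card k : ℝ) ^ r.card *
      (K * 2 ^ (i + j) * (i + j) ^ K * (2 : ℝ) ^ (-(min i j : ℝ) / K) *
        Real.exp (-(S.nm r / (2 * X / 2 ^ (i + j)))))) := by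
  have e1 : ∑ b ∈ P.powerset with S.Fam b, ∑ q ∈ b with (S.Wt E b q ∧ S.bl q = j),
      ∑ P₁ ∈ b with (S.Top b P₁ ∧ S.bl P₁ = i),
      (Fintype.card k : ℂ) ^ (S.rs b q).card * TT S ψ ψ₁ E b q s x t c y *
      (Real.exp (-(S.nm b / X)) : ℂ) =
      ∑ b ∈ P.powerset, ∑ q ∈ b, ∑ P₁ ∈ b, gg S ψ ψ₁ E i j s X x t c y b q P₁ := by
    rw [sum_filter]
    refine sum_congr rfl fun b _ => ?_
    by_cases h1 : S.Fam b
    · rw [if_pos h1, sum_filter]
      refine sum_congr rfl fun q _ => ?_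
      by_cases h2 : S.Wt E b q ∧ S.bl q = j
      · rw [if_pos h2, sum_filter]
        refine sum_congr rfl fun P₁ _ => ?_
        unfold gg
        by_cases h3 : S.Top b P₁ ∧ S.bl P₁ = i
        · rw [if_pos h3, if_pos ⟨h1, h2, h3⟩]
        · rw [if_neg h3, if_neg (fun h => h3 h.2.2)]
      · rw [if_neg h2]
        refine (sum_eq_zero fun P₁ _ => ?_).symm
        unfold gg
        rw [if_neg (fun h => h2 h.2.1)]
    · rw [if_neg h1]
      refine (sum_eq_zero fun q _ => sum_eq_zero fun P₁ _ => ?_).symm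
      unfold gg
      rw [if_neg (fun h => h1 h.1)]
  rw [e1, decomp hdec P (gg S ψ ψ₁ E i j s X x t c y) (fun b q => by
    unfold gg
    rw [if_neg (fun h => h.2.2.1.spl h.2.1.1.spl)])]
  refine (norm_sum_le _ _).trans (sum_le_sum fun r _ => ?_)
  exact inner_le S ψ ψ₁ g K hH E i j hi hj s hs X hX x t ht c y P r

open Classical in
lemma total_le (hdec : C_DEC) [Algebra (ZMod p) k] [Fact p.Prime] [Fintype k] [Fintype C]
    [Fintype U]
    (ψ : AddChar k ℂ) (ψ₁ : AddChar (ZMod p) ℂ) (g : ℝ → ℝ) (K : ℕ) (hH : S.Hyp ψ ψ₁ g K)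
    (E i j : ℕ) (hi : 1 ≤ i) (hj : 1 ≤ j) (s : ZMod p) (hs : s ≠ 0) (X : ℝ) (hX : 0 < X)
    (P : Finset B) :
    ‖∑ b ∈ P.powerset with S.Fam b, ∑ q ∈ b with (S.Wt E b q ∧ S.bl q = j),
      ∑ P₁ ∈ b with (S.Top b P₁ ∧ S.bl P₁ = i),
        S.osc ψ ψ₁ E P b q s * (Real.exp (-(S.nm b / X)) : ℂ)‖ ≤
    Fintype.card U * Fintype.card k *
    ∑ r ∈ P.powerset, Fintype.card C * ((Fintype.card k : ℝ) ^ r.card *
      (K * 2 ^ (i + j) * (i + j) ^ K * (2 : ℝ) ^ (-(min i j : ℝ) / K) *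
        Real.exp (-(S.nm r / (2 * X / 2 ^ (i + j)))))) := by
  set M := ∑ r ∈ P.powerset, Fintype.card C * ((Fintype.card k : ℝ) ^ r.card *
      (K * 2 ^ (i + j) * (i + j) ^ K * (2 : ℝ) ^ (-(min i j : ℝ) / K) *
        Real.exp (-(S.nm r / (2 * X / 2 ^ (i + j)))))) with hM
  have hM0 : 0 ≤ M := by
    rw [hM]
    positivity
  set Z : Finset (U × k × (B → k) × (B → k)) :=
    univ ×ˢ ((univ : Finset k).erase 0) ×ˢ (lab k P) ×ˢ (lab k P) with hZ
  have hlab : 0 < (lab k P).card := card_pos.2 ⟨0, mem_lab.2 fun _ _ => rfl⟩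
  have e0 : ∀ b q, S.osc ψ ψ₁ E P b q s * (Real.exp (-(S.nm b / X)) : ℂ) =
      ∑ z ∈ Z, (1 / ((lab k P).card : ℂ) ^ 2) * ((Fintype.card k : ℂ) ^ (S.rs b q).card *
        TT S ψ ψ₁ E b q s z.1 z.2.1 z.2.2.1 z.2.2.2 * (Real.exp (-(S.nm b / X)) : ℂ)) := by
    intro b q
    rw [osc_eq, hZ, sum_product]
    simp only [sum_product]
    simp only [mul_sum, sum_mul]
    refine sum_congr rfl fun x _ => sum_congr rfl fun t _ => sum_congr rfl fun c _ =>
      sum_congr rfl fun y _ => ?_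
    ring
  have e1 : ∑ b ∈ P.powerset with S.Fam b, ∑ q ∈ b with (S.Wt E b q ∧ S.bl q = j),
      ∑ P₁ ∈ b with (S.Top b P₁ ∧ S.bl P₁ = i),
        S.osc ψ ψ₁ E P b q s * (Real.exp (-(S.nm b / X)) : ℂ) =
      ∑ z ∈ Z, (1 / ((lab k P).card : ℂ) ^ 2) *
      ∑ b ∈ P.powerset with S.Fam b, ∑ q ∈ b with (S.Wt E b q ∧ S.bl q = j),
      ∑ P₁ ∈ b with (S.Top b P₁ ∧ S.bl P₁ = i),
      (Fintype.card k : ℂ) ^ (S.rs b q).card * TT S ψ ψ₁ E b q s z.1 z.2.1 z.2.2.1 z.2.2.2 *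
      (Real.exp (-(S.nm b / X)) : ℂ) := by
    simp only [e0, mul_sum]
    calc _ = ∑ b ∈ P.powerset with S.Fam b, ∑ z ∈ Z, ∑ q ∈ b with (S.Wt E b q ∧ S.bl q = j),
      ∑ P₁ ∈ b with (S.Top b P₁ ∧ S.bl P₁ = i),
      (1 / ((lab k P).card : ℂ) ^ 2) * ((Fintype.card k : ℂ) ^ (S.rs b q).card *
        TT S ψ ψ₁ E b q s z.1 z.2.1 z.2.2.1 z.2.2.2 * (Real.exp (-(S.nm b / X)) : ℂ)) := by
          refine sum_congr rfl fun b _ => ?_
          exact Eq.trans (sum_congr rfl fun q _ => sum_comm) sum_comm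
      _ = _ := sum_comm
  rw [e1]
  refine (norm_sum_le _ _).trans ?_
  have h1 : ∀ z ∈ Z, ‖(1 / ((lab k P).card : ℂ) ^ 2) *
      ∑ b ∈ P.powerset with S.Fam b, ∑ q ∈ b with (S.Wt E b q ∧ S.bl q = j),
      ∑ P₁ ∈ b with (S.Top b P₁ ∧ S.bl P₁ = i),
      (Fintype.card k : ℂ) ^ (S.rs b q).card * TT S ψ ψ₁ E b q s z.1 z.2.1 z.2.2.1 z.2.2.2 *
      (Real.exp (-(S.nm b / X)) : ℂ)‖ ≤ 1 / ((lab k P).card : ℝ) ^ 2 * M := by
    intro z hz
    rw [norm_mul, norm_div, norm_one, norm_pow, Complex.norm_natCast]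
    have h2 : z.2.1 ≠ 0 := by
      rw [hZ, mem_product, mem_product] at hz
      exact (mem_erase.1 hz.2.1).1
    exact mul_le_mul_of_nonneg_left (fixed_le S hdec ψ ψ₁ g K hH E i j hi hj s hs X hX z.1
      z.2.1 h2 z.2.2.1 z.2.2.2 P) (by positivity)
  refine (sum_le_sum h1).trans ?_
  rw [sum_const, nsmul_eq_mul]
  have h3 : Z.card = Fintype.card U * ((Fintype.card k - 1) * ((lab k P).card *
      (lab k P).card)) := by
    rw [hZ, card_product, card_product, card_product, card_univ, card_erase_of_mem (mem_univ _),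
      card_univ]
  have h4 : (Z.card : ℝ) ≤ Fintype.card U * Fintype.card k * ((lab k P).card : ℝ) ^ 2 := by
    rw [h3]
    have h5 : Fintype.card U * ((Fintype.card k - 1) * ((lab k P).card * (lab k P).card)) ≤
        Fintype.card U * Fintype.card k * (lab k P).card ^ 2 := by
      have h6 : Fintype.card k - 1 ≤ Fintype.card k := Nat.sub_le _ _
      calc _ ≤ Fintype.card U * (Fintype.card k * ((lab k P).card * (lab k P).card)) := by
            gcongr
        _ = _ := by ring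
    exact_mod_cast h5
  have h7 : (0 : ℝ) < (lab k P).card := by exact_mod_cast hlab
  calc (Z.card : ℝ) * (1 / ((lab k P).card : ℝ) ^ 2 * M) ≤
      (Fintype.card U * Fintype.card k * ((lab k P).card : ℝ) ^ 2) *
        (1 / ((lab k P).card : ℝ) ^ 2 * M) := by gcongr
    _ = _ := by field_simp

open Classical in
lemma upto_sum [Algebra (ZMod p) k] [Fintype k]
    (ψ : AddChar k ℂ) (ψ₁ : AddChar (ZMod p) ℂ) (g : ℝ → ℝ) (K : ℕ) (hH : S.Hyp ψ ψ₁ g K)
    (X Y : ℝ) (hYX : Y ≤ X) :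
    ∑ q ∈ S.upto Y, (1 : ℝ) / S.N q ≤ K * (1 + Real.log (lg X + 1)) := by
  have h1 : ∀ q ∈ S.upto Y, S.bl q ∈ Icc 1 (lg X) := by
    intro q hq
    unfold Sys.upto at hq
    rw [Set.Finite.mem_toFinset] at hq
    have h2 : S.N q ≤ ⌊X⌋₊ := le_trans hq (Nat.floor_le_floor hYX)
    rw [mem_Icc]
    constructor
    · unfold Sys.bl
      exact Nat.log_pos (by norm_num) (S.two_le q)
    · unfold Sys.bl lg
      exact Nat.log_mono_right h2
  rw [← sum_fiberwise_of_maps_to h1]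
  have h2 : ∀ m ∈ Icc 1 (lg X), ∑ q ∈ S.upto Y with S.bl q = m, (1 : ℝ) / S.N q ≤
      K * (m : ℝ)⁻¹ := by
    intro m hm
    refine le_trans ?_ ((hH.che m (mem_Icc.1 hm).1).trans_eq (div_eq_mul_inv _ _))
    refine sum_le_sum_of_subset_of_nonneg ?_ fun q _ _ => by positivity
    intro q hq
    exact (mem_blk S m q).2 (mem_filter.1 hq).2
  refine (sum_le_sum h2).trans ?_
  rw [← mul_sum]
  refine mul_le_mul_of_nonneg_left ?_ (by positivity)
  have h3 := harmonic_le_one_add_log (lg X)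
  rw [harmonic_eq_sum_Icc] at h3
  push_cast at h3
  refine h3.trans ?_
  rcases Nat.eq_zero_or_pos (lg X) with h4 | h4
  · rw [h4]
    simp
  · have h5 : (0 : ℝ) < lg X := by exact_mod_cast h4
    have := Real.log_le_log h5 (show (lg X : ℝ) ≤ lg X + 1 by linarith)
    linarith

open Classical in
theorem c_osb (hdec : C_DEC) : Pool.Agent.Helper17.PP.C_OSB := by
  intro p _ B B₀ k U Λ C _ _ _ _ _ _ _ _ _ _ _ S ψ ψ₁ g K hH
  have : Fintype C := Fintype.ofFinite C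
  set n0 := (Fintype.card k - 1) * K with hn0
  set C1 : ℕ := 4 * Fintype.card U * Fintype.card k * Fintype.card C * K ^ 3 * 3 ^ n0 with hC1
  refine ⟨C1 + n0, fun E i j s X P hi hj _ hs hX => ?_⟩
  have hX0 : 0 < X := by linarith
  refine (total_le S hdec ψ ψ₁ g K hH E i j hi hj s hs X hX0 P).trans ?_
  set Y : ℝ := 2 * X / 2 ^ (i + j) with hY
  have hY0 : 0 < Y := by positivity
  have h2ij : (2 : ℝ) ≤ 2 ^ (i + j) := by
    calc (2 : ℝ) = 2 ^ 1 := by norm_num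
      _ ≤ 2 ^ (i + j) := pow_le_pow_right₀ (by norm_num) (by omega)
  have hYX : Y ≤ X := by
    rw [hY, div_le_iff₀ (by positivity)]
    nlinarith
  set w : ℝ := (2 : ℝ) ^ (-(min i j : ℝ) / K) with hw
  have hw0 : 0 ≤ w := by positivity
  have hQ1 : 1 ≤ Fintype.card k := Fintype.card_pos
  have hK1 : (1 : ℝ) ≤ K := by exact_mod_cast hH.one_le
  have hgX : 1 ≤ g X := hH.g_one X
  have hgY : g Y ≤ K * g X := hH.g_mono Y X hYX
  have h1 := hH.ht (fun _ => Fintype.card k) (fun q => ⟨by positivity, by linarith⟩) Y hY0 P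
  simp only [prod_const] at h1
  have h2 : ∑ q ∈ S.upto Y, ((Fintype.card k : ℝ) - 1) / S.N q ≤
      n0 * (1 + Real.log (lg X + 1)) := by
    have h3 := upto_sum S ψ ψ₁ g K hH X Y hYX
    have h4 : ∑ q ∈ S.upto Y, ((Fintype.card k : ℝ) - 1) / S.N q =
        ((Fintype.card k : ℝ) - 1) * ∑ q ∈ S.upto Y, (1 : ℝ) / S.N q := by
      rw [mul_sum]
      exact sum_congr rfl fun q _ => by ring
    rw [h4, hn0]
    push_cast [Nat.cast_sub hQ1]
    rw [mul_assoc]
    refine mul_le_mul_of_nonneg_left h3 ?_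
    have : (1 : ℝ) ≤ Fintype.card k := by exact_mod_cast hQ1
    linarith
  have hL0 : (0 : ℝ) < (lg X : ℝ) + 1 := by positivity
  have h3 : Real.exp (∑ q ∈ S.upto Y, ((Fintype.card k : ℝ) - 1) / S.N q) ≤
      3 ^ n0 * ((lg X : ℝ) + 2) ^ n0 := by
    calc _ ≤ Real.exp (n0 * (1 + Real.log (lg X + 1))) := Real.exp_le_exp.2 h2
      _ = (Real.exp 1 * (lg X + 1)) ^ n0 := by
        rw [Real.exp_nat_mul, Real.exp_add, Real.exp_log hL0]
      _ ≤ (3 * ((lg X : ℝ) + 2)) ^ n0 := by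
        have h4 : Real.exp 1 ≤ 3 := by
          have := Real.exp_one_lt_d9
          linarith
        refine pow_le_pow_left₀ (by positivity) ?_ _
        refine mul_le_mul h4 (by linarith) hL0.le (by norm_num)
      _ = _ := by rw [mul_pow]
  have hmin : min 1 Y ≤ 2 * min 1 (X / 2 ^ (i + j)) := by
    have h5 : Y = 2 * (X / 2 ^ (i + j)) := by
      rw [hY]
      ring
    rw [h5]
    have h6 : 0 < X / 2 ^ (i + j) := by positivity
    rcases le_total 1 (X / 2 ^ (i + j)) with h7 | h7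
    · rw [min_eq_left h7]
      exact (min_le_left _ _).trans (by norm_num)
    · rw [min_eq_right h7]
      exact min_le_right _ _
  set mm : ℝ := min 1 (X / 2 ^ (i + j)) with hmm
  have hmm0 : 0 ≤ mm := by
    rw [hmm]
    exact le_min (by norm_num) (by positivity)
  -- the sum over `r`
  have h8 : ∑ r ∈ P.powerset, Fintype.card C * ((Fintype.card k : ℝ) ^ r.card *
      (K * 2 ^ (i + j) * (i + j) ^ K * w * Real.exp (-(S.nm r / Y)))) ≤
      Fintype.card C * (K * 2 ^ (i + j) * (i + j) ^ K * w) *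
        (K * (Y * (2 * mm) * (K * g X)) * (3 ^ n0 * ((lg X : ℝ) + 2) ^ n0)) := by
    have e1 : ∑ r ∈ P.powerset, Fintype.card C * ((Fintype.card k : ℝ) ^ r.card *
        (K * 2 ^ (i + j) * (i + j) ^ K * w * Real.exp (-(S.nm r / Y)))) =
        Fintype.card C * (K * 2 ^ (i + j) * (i + j) ^ K * w) *
        ∑ r ∈ P.powerset, (Fintype.card k : ℝ) ^ r.card * Real.exp (-(S.nm r / Y)) := by
      rw [mul_sum]
      exact sum_congr rfl fun r _ => by ring
    rw [e1]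
    refine mul_le_mul_of_nonneg_left ?_ (by positivity)
    refine h1.trans ?_
    have hgY0 : 0 ≤ g Y := le_trans (by norm_num) (hH.g_one Y)
    have h9 : Y * min 1 Y * g Y ≤ Y * (2 * mm) * (K * g X) := by
      have h10 : 0 ≤ min 1 Y := le_min (by norm_num) hY0.le
      gcongr
    have h11 : 0 ≤ Y * min 1 Y * g Y := by
      have h10 : 0 ≤ min 1 Y := le_min (by norm_num) hY0.le
      positivity
    refine mul_le_mul ?_ h3 (Real.exp_pos _).le ?_
    · exact mul_le_mul_of_nonneg_left h9 (by positivity)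
    · have : 0 ≤ Y * (2 * mm) * (K * g X) := h11.trans h9
      positivity
  refine (mul_le_mul_of_nonneg_left h8 (by positivity)).trans ?_
  have h12 : (2 : ℝ) ^ (i + j) * Y = 2 * X := by
    rw [hY]
    field_simp
  have h13 : (Fintype.card U : ℝ) * Fintype.card k * (Fintype.card C *
      (K * 2 ^ (i + j) * (i + j) ^ K * w) *
        (K * (Y * (2 * mm) * (K * g X)) * (3 ^ n0 * ((lg X : ℝ) + 2) ^ n0))) =
      (C1 : ℝ) * ((lg X : ℝ) + 2) ^ n0 * (i + j) ^ K * w * mm * (X * g X) := by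
    rw [hC1]
    push_cast
    linear_combination ((Fintype.card U : ℝ) * Fintype.card k * Fintype.card C * K ^ 3 *
      (i + j) ^ K * w * 2 * mm * g X * 3 ^ n0 * ((lg X : ℝ) + 2) ^ n0) * h12
  rw [h13]
  have h14 : (C1 : ℝ) ≤ ((C1 + n0 : ℕ) : ℝ) := by
    push_cast
    have : (0 : ℝ) ≤ n0 := Nat.cast_nonneg _
    linarith
  have h15 : ((lg X : ℝ) + 2) ^ n0 ≤ ((lg X : ℝ) + 2) ^ (C1 + n0) := by
    refine pow_le_pow_right₀ ?_ (by omega)
    have : (0 : ℝ) ≤ lg X := Nat.cast_nonneg _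
    linarith
  have h16 : 0 ≤ X * g X := by positivity
  gcongr

end Pool.Agent.Helper30.PP
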